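import Pool.Agent.H6.NB.Targets

/-!
Module STE (MP_0f8dca_lc): one step of the walk.
-/

set_option autoImplicit false

namespace Pool.Agent.H36.NB.STE

open Pool.Agent.H6.NB

theorem abs_sg (b : Bool) : |sg b| = 1 := by
  rcases b with _ | _ <;> simp [sg]

theorem hat_le {V : Type} [Fintype V] [DecidableEq V] (F : (V → Bool) → ℝ) (hF : ∀ y, |F y| ≤ 1)
    (S : Finset V) : |hat F S| ≤ 1 := by
  unfold hat
  rw [abs_div, abs_of_pos (by positivity : (0 : ℝ) < 2 ^ Fintype.card V), div_le_one (by positivity)]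
  refine (Finset.abs_sum_le_sum_abs _ _).trans ?_
  have h1 : ∀ y : V → Bool, |F y * ∏ u ∈ S, sg (y u)| ≤ 1 := by
    intro y
    rw [abs_mul, Finset.abs_prod, Finset.prod_eq_one fun u _ => abs_sg _, mul_one]
    exact hF y
  refine (Finset.sum_le_sum fun y _ => h1 y).trans ?_
  rw [Finset.sum_const, Finset.card_univ, nsmul_eq_mul, mul_one]
  simp

/-- the sum over the large sets -/
theorem tail_le (n : ℕ) (y : ℝ) (hy : 0 ≤ y) (hx : (n : ℝ) * y ≤ 1) :
    ∑ k ∈ Finset.range (n + 1), (n.choose k) • (if 3 ≤ k then y ^ k else 0) ≤ ((n : ℝ) * y) ^ 3 := by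
  set x : ℝ := (n : ℝ) * y with hxdef
  have hx0 : 0 ≤ x := by positivity
  have h1 : ∀ k, ((n.choose k) • (if 3 ≤ k then y ^ k else 0) : ℝ) ≤
      if 3 ≤ k then x ^ k / (k.factorial : ℝ) else 0 := by
    intro k
    split_ifs
    · rw [nsmul_eq_mul, hxdef, mul_pow]
      have h2 := Nat.choose_le_pow_div (α := ℝ) k n
      calc (n.choose k : ℝ) * y ^ k ≤ ((n : ℝ) ^ k / (k.factorial : ℝ)) * y ^ k :=
            mul_le_mul_of_nonneg_right h2 (by positivity)
        _ = _ := by ring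
    · simp
  refine (Finset.sum_le_sum fun k _ => h1 k).trans ?_
  have h3 : ∑ k ∈ Finset.range (n + 1), (if 3 ≤ k then x ^ k / (k.factorial : ℝ) else 0) ≤
      ∑ k ∈ Finset.range (3 + n), (if 3 ≤ k then x ^ k / (k.factorial : ℝ) else 0) := by
    refine Finset.sum_le_sum_of_subset_of_nonneg (Finset.range_mono (by omega)) ?_
    intro k _ _
    split_ifs
    · positivity
    · exact le_rfl
  refine h3.trans ?_
  have h4 : ∑ k ∈ Finset.range (3 + n), (if 3 ≤ k then x ^ k / (k.factorial : ℝ) else 0) =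
      ∑ k ∈ Finset.range n, x ^ (3 + k) / ((3 + k).factorial : ℝ) := by
    rw [Finset.sum_range_add]
    simp [Finset.sum_range_succ]
  have h5 : ∑ k ∈ Finset.range (3 + n), x ^ k / (k.factorial : ℝ) =
      ∑ k ∈ Finset.range 3, x ^ k / (k.factorial : ℝ) +
      ∑ k ∈ Finset.range n, x ^ (3 + k) / ((3 + k).factorial : ℝ) := by
    rw [Finset.sum_range_add]
  have h6 := Real.sum_le_exp_of_nonneg hx0 (3 + n)
  have h7 := Real.exp_bound' hx0 hx (n := 3) (by norm_num)
  rw [h4]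
  have h8 : x ^ 3 * ((3 : ℕ) + 1) / ((Nat.factorial 3 : ℕ) * (3 : ℕ)) ≤ x ^ 3 := by
    have : (Nat.factorial 3 : ℕ) = 6 := rfl
    rw [this]
    push_cast
    have : 0 ≤ x ^ 3 := by positivity
    linarith
  push_cast at *
  linarith

theorem step (h1 : T_FOU) (h3 : T_DIR) (q : ℕ) (F : (VV q → Bool) → ℝ) (Λ δ : ℝ)
    (hL : L12 F ≤ Λ) (hF : ∀ y, |F y| ≤ 1) (hδ : 0 ≤ δ)
    (hx : 4 * δ * (2 ^ q * √(2 ^ q)) ≤ 1) :
    |(∑ r : (Fin q → Bool) → Bool, mle F (fun v => 2 * (δ * dir q r v))) / 2 ^ 2 ^ q -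
        mle F (fun _ => 2 * 0)| ≤
      4 * δ ^ 2 * Λ / √(2 ^ q) + (4 * δ * (2 ^ q * √(2 ^ q))) ^ 3 := by
  obtain ⟨hd1, hd2, hd3, -, -⟩ := h3 q
  have hM : (0 : ℝ) < 2 ^ q := by positivity
  have hs : (0 : ℝ) < √(2 ^ q) := Real.sqrt_pos.2 hM
  have hN : (0 : ℝ) < 2 ^ 2 ^ q := by positivity
  set s : ℝ := √(2 ^ q) with hsdef
  set y : ℝ := 2 * δ * s with hydef
  have hy : 0 ≤ y := by positivity
  set a : Finset (VV q) → ℝ := fun S =>
    (∑ r : (Fin q → Bool) → Bool, ∏ u ∈ S, (2 * (δ * dir q r u))) / 2 ^ 2 ^ q -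
      ∏ u ∈ S, (2 * (0 : ℝ)) with hadef
  have hD : (∑ r : (Fin q → Bool) → Bool, mle F (fun v => 2 * (δ * dir q r v))) / 2 ^ 2 ^ q -
        mle F (fun _ => 2 * 0) = ∑ S : Finset (VV q), hat F S * a S := by
    simp only [h1 (VV q) F]
    rw [Finset.sum_comm, Finset.sum_div, ← Finset.sum_sub_distrib]
    refine Finset.sum_congr rfl fun S _ => ?_
    rw [← Finset.mul_sum, hadef]
    ring
  have hcard : (Fintype.card ((Fin q → Bool) → Bool) : ℝ) = 2 ^ 2 ^ q := by
    simp [Fintype.card_bool]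
  -- the bound for the large sets
  have hbig : ∀ S : Finset (VV q),
      |(∑ r : (Fin q → Bool) → Bool, ∏ u ∈ S, (2 * (δ * dir q r u))) / 2 ^ 2 ^ q| ≤ y ^ S.card := by
    intro S
    rw [abs_div, abs_of_pos hN, div_le_iff₀ hN]
    refine (Finset.abs_sum_le_sum_abs _ _).trans ?_
    have : ∀ r : (Fin q → Bool) → Bool, |∏ u ∈ S, (2 * (δ * dir q r u))| ≤ y ^ S.card := by
      intro r
      rw [Finset.abs_prod, ← Finset.prod_const]
      refine Finset.prod_le_prod (fun u _ => abs_nonneg _) fun u _ => ?_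
      rw [abs_mul, abs_mul, abs_of_pos (by norm_num : (0 : ℝ) < 2), abs_of_nonneg hδ, hydef]
      nlinarith [hd1 r u, abs_nonneg (dir q r u)]
    refine (Finset.sum_le_sum fun r _ => this r).trans ?_
    rw [Finset.sum_const, Finset.card_univ, nsmul_eq_mul, hcard, mul_comm]
  have hterm : ∀ S : Finset (VV q), |hat F S * a S| ≤
      (if S.card = 2 then |hat F S| * (4 * δ ^ 2 / s) else 0) +
        (if 3 ≤ S.card then y ^ S.card else 0) := by
    intro S
    rw [abs_mul]
    have hh := hat_le F hF S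
    rcases Nat.lt_or_ge S.card 3 with hc | hc
    · rw [if_neg (by omega : ¬ 3 ≤ S.card), add_zero]
      have hc' : S.card = 0 ∨ S.card = 1 ∨ S.card = 2 := by omega
      rcases hc' with hc' | hc' | hc'
      · rw [Finset.card_eq_zero] at hc'
        subst hc'
        have : a ∅ = 0 := by
          rw [hadef]
          simp only [Finset.prod_empty, Finset.sum_const, Finset.card_univ, nsmul_eq_mul, mul_one]
          rw [hcard, div_self hN.ne', sub_self]
        rw [this]
        simp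
      · obtain ⟨u, rfl⟩ := Finset.card_eq_one.1 hc'
        have : a {u} = 0 := by
          rw [hadef]
          simp only [Finset.prod_singleton]
          rw [← Finset.mul_sum, ← Finset.mul_sum, hd2]
          simp
        rw [this]
        simp
      · rw [if_pos hc']
        refine mul_le_mul_of_nonneg_left ?_ (abs_nonneg _)
        obtain ⟨u, v, huv, rfl⟩ := Finset.card_eq_two.1 hc'
        rw [hadef]
        simp only [Finset.prod_pair huv]
        have h5 : ∀ r : (Fin q → Bool) → Bool, 2 * (δ * dir q r u) * (2 * (δ * dir q r v)) =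
            4 * δ ^ 2 * (dir q r u * dir q r v) := by
          intro r; ring
        rw [Finset.sum_congr rfl fun r _ => h5 r, ← Finset.mul_sum]
        have h6 := hd3 u v huv
        rw [mul_zero, mul_zero, sub_zero, abs_div, abs_of_pos hN, abs_mul,
          abs_of_nonneg (by positivity : (0 : ℝ) ≤ 4 * δ ^ 2), div_le_iff₀ hN]
        calc 4 * δ ^ 2 * |∑ r, dir q r u * dir q r v| ≤ 4 * δ ^ 2 * (2 ^ 2 ^ q / s) :=
              mul_le_mul_of_nonneg_left h6 (by positivity)
          _ = 4 * δ ^ 2 / s * 2 ^ 2 ^ q := by ring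
    · rw [if_neg (by omega : ¬ S.card = 2), zero_add, if_pos hc]
      have h7 : a S = (∑ r : (Fin q → Bool) → Bool, ∏ u ∈ S, (2 * (δ * dir q r u))) / 2 ^ 2 ^ q := by
        rw [hadef]
        simp only [mul_zero]
        rw [Finset.prod_const, zero_pow (by omega), sub_zero]
      rw [h7]
      calc |hat F S| * |(∑ r : (Fin q → Bool) → Bool, ∏ u ∈ S, (2 * (δ * dir q r u))) / 2 ^ 2 ^ q|
          ≤ 1 * y ^ S.card := mul_le_mul hh (hbig S) (abs_nonneg _) (by norm_num)
        _ = _ := one_mul _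
  rw [hD]
  refine (Finset.abs_sum_le_sum_abs _ _).trans ((Finset.sum_le_sum fun S _ => hterm S).trans ?_)
  rw [Finset.sum_add_distrib]
  refine add_le_add ?_ ?_
  · rw [← Finset.sum_filter, ← Finset.sum_mul]
    have h8 : (Finset.univ.filter fun S : Finset (VV q) => S.card = 2) =
        Finset.powersetCard 2 (Finset.univ : Finset (VV q)) := by
      ext S
      simp [Finset.mem_powersetCard]
    rw [h8]
    calc (∑ S ∈ Finset.powersetCard 2 (Finset.univ : Finset (VV q)), |hat F S|) * (4 * δ ^ 2 / s)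
        ≤ Λ * (4 * δ ^ 2 / s) := mul_le_mul_of_nonneg_right hL (by positivity)
      _ = _ := by ring
  · have h9 := Finset.sum_powerset_apply_card (x := (Finset.univ : Finset (VV q)))
      (fun k => if 3 ≤ k then y ^ k else (0 : ℝ))
    rw [Finset.powerset_univ] at h9
    rw [h9]
    have h10 : (Finset.univ : Finset (VV q)).card = 2 * 2 ^ q := by
      rw [Finset.card_univ]
      simp
    rw [h10]
    have h11 : (((2 * 2 ^ q : ℕ) : ℝ)) * y = 4 * δ * (2 ^ q * s) := by
      rw [hydef]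
      push_cast
      ring
    have h12 := tail_le (2 * 2 ^ q) y hy (by rw [h11]; exact hx)
    rw [h11] at h12
    exact h12

theorem t_ste (h1 : T_FOU) (h2 : T_RST) (h3 : T_DIR) : T_STE := by
  intro q F Λ δ W hL hF hW hδ hx
  obtain ⟨c, hc0, hc1, hc⟩ := h2 (VV q) W hW
  have hN : (0 : ℝ) < 2 ^ 2 ^ q := by positivity
  have hW0 : mle F W = ∑ ρ, c ρ * mle (rst ρ F) (fun _ => 2 * 0) := by
    have := hc F (fun _ => 0)
    simpa using this
  have hE : (∑ r : (Fin q → Bool) → Bool, mle F (fun v => W v + δ * dir q r v)) / 2 ^ 2 ^ q - mle F W =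
      ∑ ρ, c ρ * ((∑ r : (Fin q → Bool) → Bool, mle (rst ρ F) (fun v => 2 * (δ * dir q r v))) / 2 ^ 2 ^ q -
        mle (rst ρ F) (fun _ => 2 * 0)) := by
    have h4 : ∀ r : (Fin q → Bool) → Bool, mle F (fun v => W v + δ * dir q r v) =
        ∑ ρ, c ρ * mle (rst ρ F) (fun v => 2 * (δ * dir q r v)) := fun r => hc F fun v => δ * dir q r v
    rw [Finset.sum_congr rfl fun r _ => h4 r, hW0, Finset.sum_comm, Finset.sum_div,
      ← Finset.sum_sub_distrib]
    refine Finset.sum_congr rfl fun ρ _ => ?_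
    rw [← Finset.mul_sum]
    ring
  rw [hE]
  refine (Finset.abs_sum_le_sum_abs _ _).trans ?_
  have h5 : ∀ ρ : VV q → Option Bool, |c ρ * ((∑ r : (Fin q → Bool) → Bool,
      mle (rst ρ F) (fun v => 2 * (δ * dir q r v))) / 2 ^ 2 ^ q - mle (rst ρ F) (fun _ => 2 * 0))| ≤
      c ρ * (4 * δ ^ 2 * Λ / √(2 ^ q) + (4 * δ * (2 ^ q * √(2 ^ q))) ^ 3) := by
    intro ρ
    rw [abs_mul, abs_of_nonneg (hc0 ρ)]
    exact mul_le_mul_of_nonneg_left
      (step h1 h3 q (rst ρ F) Λ δ (hL ρ) (fun y => hF _) hδ hx) (hc0 ρ)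
  refine (Finset.sum_le_sum fun ρ _ => h5 ρ).trans ?_
  rw [← Finset.sum_mul, hc1, one_mul]

end Pool.Agent.H36.NB.STE
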