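import Pool.Agent.H6.NB.Targets

/-!
Module DIR (MP_0f8dca_lc): moments of the directions.
-/

set_option autoImplicit false

namespace Pool.Agent.H36.NB.DIR

open Pool.Agent.H6.NB

/-- the coefficients of the directions -/
noncomputable def al (q : ℕ) (v : VV q) (c : Fin q → Bool) : ℝ :=
  if v.1 then hd q v.2 c else if c = v.2 then 1 else 0

theorem dir_eq (q : ℕ) (r : (Fin q → Bool) → Bool) (v : VV q) :
    dir q r v = ∑ c, al q v c * sg (r c) := by
  obtain ⟨b, a⟩ := v
  rcases b with _ | _
  · simp [dir, al]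
  · simp [dir, al]

theorem sg_sq (b : Bool) : sg b * sg b = 1 := by
  rcases b with _ | _ <;> simp [sg]

theorem abs_sg (b : Bool) : |sg b| = 1 := by
  rcases b with _ | _ <;> simp [sg]

theorem abs_hd (q : ℕ) (a b : Fin q → Bool) : |hd q a b| = 1 / √(2 ^ q) := by
  unfold hd
  rw [abs_div, abs_of_nonneg (Real.sqrt_nonneg _), Finset.abs_prod]
  congr 1
  refine Finset.prod_eq_one fun i _ => ?_
  split_ifs <;> simp

theorem card_r (q : ℕ) : (Fintype.card ((Fin q → Bool) → Bool) : ℝ) = 2 ^ 2 ^ q := by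
  simp [Fintype.card_bool]

theorem sum_sg (q : ℕ) (c : Fin q → Bool) :
    ∑ r : (Fin q → Bool) → Bool, sg (r c) = 0 := by
  have h1 : ∀ r : (Fin q → Bool) → Bool, sg (r c) = ∏ u, if u = c then sg (r u) else 1 := by
    intro r
    rw [Finset.prod_ite_eq' Finset.univ c]
    simp
  rw [Finset.sum_congr rfl fun r _ => h1 r,
    ← Fintype.prod_sum (fun (u : Fin q → Bool) (b : Bool) => if u = c then sg b else 1)]
  refine Finset.prod_eq_zero (Finset.mem_univ c) ?_
  rw [Fintype.sum_bool]
  simp [sg]

theorem sum_sg_sg (q : ℕ) (c c' : Fin q → Bool) :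
    ∑ r : (Fin q → Bool) → Bool, sg (r c) * sg (r c') = if c = c' then 2 ^ 2 ^ q else 0 := by
  split_ifs with h
  · subst h
    simp only [sg_sq]
    rw [Finset.sum_const, nsmul_eq_mul, mul_one, Finset.card_univ, card_r]
  · have h1 : ∀ r : (Fin q → Bool) → Bool, sg (r c) * sg (r c') =
        ∏ u, (if u = c then sg (r u) else 1) * (if u = c' then sg (r u) else 1) := by
      intro r
      rw [Finset.prod_mul_distrib, Finset.prod_ite_eq' Finset.univ c, Finset.prod_ite_eq' Finset.univ c']
      simp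
    rw [Finset.sum_congr rfl fun r _ => h1 r,
      ← Fintype.prod_sum (fun (u : Fin q → Bool) (b : Bool) =>
        (if u = c then sg b else 1) * (if u = c' then sg b else 1))]
    refine Finset.prod_eq_zero (Finset.mem_univ c) ?_
    rw [Fintype.sum_bool, if_neg h]
    simp [sg]

theorem cross (q : ℕ) (u v : VV q) :
    ∑ r, dir q r u * dir q r v = 2 ^ 2 ^ q * ∑ c, al q u c * al q v c := by
  have h1 : ∀ r : (Fin q → Bool) → Bool, dir q r u * dir q r v =
      ∑ c, ∑ c', al q u c * al q v c' * (sg (r c) * sg (r c')) := by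
    intro r
    rw [dir_eq, dir_eq, Finset.sum_mul_sum]
    refine Finset.sum_congr rfl fun c _ => Finset.sum_congr rfl fun c' _ => ?_
    ring
  rw [Finset.sum_congr rfl fun r _ => h1 r, Finset.sum_comm, Finset.mul_sum]
  refine Finset.sum_congr rfl fun c _ => ?_
  rw [Finset.sum_comm]
  have h2 : ∀ c', ∑ r : (Fin q → Bool) → Bool, al q u c * al q v c' * (sg (r c) * sg (r c')) =
      if c = c' then al q u c * al q v c' * 2 ^ 2 ^ q else 0 := by
    intro c'
    rw [← Finset.mul_sum, sum_sg_sg]
    split_ifs <;> simp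
  rw [Finset.sum_congr rfl fun c' _ => h2 c', Finset.sum_ite_eq]
  simp
  ring

theorem al_sq (q : ℕ) (v : VV q) : ∑ c, al q v c ^ 2 = 1 := by
  obtain ⟨b, a⟩ := v
  rcases b with _ | _
  · simp [al]
  · have := hd_orth q a a
    simp only [if_true] at this
    simp only [al, if_true, sq]
    exact this

theorem exp_avg (q : ℕ) (v : VV q) (l : ℝ) :
    ∑ r, Real.exp (l * dir q r v) ≤ 2 ^ 2 ^ q * Real.exp (l ^ 2 / 2) := by
  have h1 : ∀ r : (Fin q → Bool) → Bool, Real.exp (l * dir q r v) =
      ∏ c, Real.exp (l * al q v c * sg (r c)) := by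
    intro r
    rw [dir_eq, ← Real.exp_sum, Finset.mul_sum]
    congr 1
    refine Finset.sum_congr rfl fun c _ => ?_
    ring
  rw [Finset.sum_congr rfl fun r _ => h1 r,
    ← Fintype.prod_sum (fun (c : Fin q → Bool) (b : Bool) => Real.exp (l * al q v c * sg b))]
  have h2 : ∀ c : Fin q → Bool, ∑ b : Bool, Real.exp (l * al q v c * sg b) ≤
      2 * Real.exp ((l * al q v c) ^ 2 / 2) := by
    intro c
    have h3 := Real.cosh_le_exp_half_sq (l * al q v c)
    rw [Real.cosh_eq] at h3
    rw [Fintype.sum_bool]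
    simp only [sg, if_true, Bool.false_eq_true, if_false, mul_neg, mul_one]
    linarith
  refine (Finset.prod_le_prod (fun c _ => Finset.sum_nonneg fun b _ => (Real.exp_pos _).le)
    fun c _ => h2 c).trans ?_
  rw [Finset.prod_mul_distrib, ← Real.exp_sum, Finset.prod_const, Finset.card_univ]
  simp only [Fintype.card_fun, Fintype.card_bool, Fintype.card_fin]
  have h4 : ∑ c, (l * al q v c) ^ 2 / 2 = l ^ 2 / 2 := by
    have := al_sq q v
    calc ∑ c, (l * al q v c) ^ 2 / 2 = ∑ c, l ^ 2 / 2 * al q v c ^ 2 := by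
          refine Finset.sum_congr rfl fun c _ => ?_
          ring
      _ = l ^ 2 / 2 := by rw [← Finset.mul_sum, this, mul_one]
  rw [h4]

theorem t_dir : T_DIR := by
  intro q
  have hq : (0 : ℝ) < 2 ^ q := by positivity
  have hs : (0 : ℝ) < √(2 ^ q) := Real.sqrt_pos.2 hq
  refine ⟨?_, ?_, ?_, ?_, ?_⟩
  · rintro r ⟨b, a⟩
    rcases b with _ | _
    · simp only [dir, Bool.false_eq_true, if_false]
      rw [abs_sg, Real.one_le_sqrt]
      exact one_le_pow₀ (by norm_num)
    · simp only [dir, if_true]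
      refine (Finset.abs_sum_le_sum_abs _ _).trans ?_
      have : ∀ c : Fin q → Bool, |hd q a c * sg (r c)| = 1 / √(2 ^ q) := by
        intro c
        rw [abs_mul, abs_sg, abs_hd, mul_one]
      rw [Finset.sum_congr rfl fun c _ => this c, Finset.sum_const, Finset.card_univ, nsmul_eq_mul]
      simp only [Fintype.card_fun, Fintype.card_bool, Fintype.card_fin]
      push_cast
      rw [mul_one_div, div_le_iff₀ hs, Real.mul_self_sqrt hq.le]
  · intro v
    simp only [dir_eq]
    rw [Finset.sum_comm]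
    refine Finset.sum_eq_zero fun c _ => ?_
    rw [← Finset.mul_sum, sum_sg, mul_zero]
  · rintro ⟨b, a⟩ ⟨b', a'⟩ hne
    rw [cross, abs_mul, abs_of_pos (by positivity : (0 : ℝ) < 2 ^ 2 ^ q), div_eq_mul_one_div]
    refine mul_le_mul_of_nonneg_left ?_ (by positivity)
    have hnn : (0 : ℝ) ≤ 1 / √(2 ^ q) := by positivity
    rcases b with _ | _ <;> rcases b' with _ | _
    · have h : a ≠ a' := fun h => hne (by rw [h])
      have h' : a' ≠ a := fun h' => h h'.symm
      simp [al, h, h']
    · simp only [al, if_true, Bool.false_eq_true, if_false, ite_mul, one_mul, zero_mul,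
        Finset.sum_ite_eq', Finset.mem_univ]
      rw [abs_hd]
    · simp only [al, if_true, Bool.false_eq_true, if_false, mul_ite, mul_one, mul_zero,
        Finset.sum_ite_eq', Finset.mem_univ]
      rw [abs_hd]
    · have h : a ≠ a' := fun h => hne (by rw [h])
      simp only [al, if_true]
      rw [hd_orth, if_neg h]
      simpa using hnn
  · intro a b
    rw [cross]
    simp only [al, if_true, Bool.false_eq_true, if_false, ite_mul, one_mul, zero_mul,
        Finset.sum_ite_eq', Finset.mem_univ]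
    rw [hd_comm]
  · intro v x l
    have h2 := exp_avg q v l
    have h3 := exp_avg q v (-l)
    rw [neg_sq] at h3
    have h1 : ∀ r : (Fin q → Bool) → Bool, Real.cosh (l * (x + dir q r v)) =
        Real.exp (l * x) / 2 * Real.exp (l * dir q r v) +
          Real.exp (-(l * x)) / 2 * Real.exp (-l * dir q r v) := by
      intro r
      rw [Real.cosh_eq, mul_add, Real.exp_add, neg_add, Real.exp_add]
      ring_nf
    rw [Finset.sum_congr rfl fun r _ => h1 r, Finset.sum_add_distrib, ← Finset.mul_sum,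
      ← Finset.mul_sum, div_le_iff₀ (by positivity), Real.cosh_eq]
    have e1 : 0 ≤ Real.exp (l * x) / 2 := by positivity
    have e2 : 0 ≤ Real.exp (-(l * x)) / 2 := by positivity
    calc _ ≤ Real.exp (l * x) / 2 * (2 ^ 2 ^ q * Real.exp (l ^ 2 / 2)) +
          Real.exp (-(l * x)) / 2 * (2 ^ 2 ^ q * Real.exp (l ^ 2 / 2)) :=
        add_le_add (mul_le_mul_of_nonneg_left h2 e1) (mul_le_mul_of_nonneg_left h3 e2)
      _ = _ := by ring

end Pool.Agent.H36.NB.DIR
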