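import Pool.Agent.H6.NB.Targets

/-!
Module FOU (MP_0f8dca_lc): the multilinear extension.
-/

set_option autoImplicit false

namespace Pool.Agent.H36.NB.FOU

open Pool.Agent.H6.NB

theorem t_fou : T_FOU := by
  intro V _ _ F W
  unfold mle hat
  have h1 : ∀ y : V → Bool, (∏ v, (1 + sg (y v) * W v) / 2) =
      ∑ S : Finset V, (∏ u ∈ S, sg (y u)) * (∏ u ∈ S, W u) / 2 ^ Fintype.card V := by
    intro y
    rw [Finset.prod_div_distrib, Finset.prod_one_add, Finset.powerset_univ, Finset.prod_const,
      Finset.card_univ, Finset.sum_div]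
    refine Finset.sum_congr rfl fun S _ => ?_
    rw [Finset.prod_mul_distrib]
  simp only [h1, Finset.sum_mul, Finset.sum_div]
  rw [Finset.sum_comm]
  refine Finset.sum_congr rfl fun S _ => Finset.sum_congr rfl fun y _ => ?_
  ring

end Pool.Agent.H36.NB.FOU
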