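import Pool.Agent.H6.NB.Targets

/-!
Module RST (MP_0f8dca_lc): the multilinear extension around a point is an average over restrictions.
-/

set_option autoImplicit false

namespace Pool.Agent.H36.NB.RST

open Pool.Agent.H6.NB

/-- the weights of one coordinate -/
noncomputable def c1 (t : ℝ) : Option Bool → ℝ
  | none => 1 / 2
  | some b => (1 + sg b * (2 * t)) / 4

theorem c1_nonneg (t : ℝ) (ht : |t| ≤ 1 / 2) (o : Option Bool) : 0 ≤ c1 t o := by
  have h := abs_le.1 ht
  rcases o with _ | b
  · simp only [c1]; norm_num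
  · rcases b with _ | _
    · simp only [c1, sg]; norm_num; linarith [h.1]
    · simp only [c1, sg]; norm_num; linarith [h.2]

theorem c1_sum (t : ℝ) : ∑ o, c1 t o = 1 := by
  rw [Fintype.sum_option, Fintype.sum_bool]
  simp only [c1, sg]
  norm_num
  ring

theorem key (v z : ℝ) (b' : Bool) :
    ∑ o : Option Bool, ∑ b : Bool, c1 v o * ((1 + sg b * (2 * z)) / 2) *
      (if o.getD b = b' then (1 : ℝ) else 0) = (1 + sg b' * (v + z)) / 2 := by
  rw [Fintype.sum_option, Fintype.sum_bool]
  simp only [Fintype.sum_bool]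
  rcases b' with _ | _ <;> simp [c1, sg] <;> ring

theorem t_rst : T_RST := by
  intro V _ _ v hv
  refine ⟨fun ρ => ∏ u, c1 (v u) (ρ u), fun ρ => Finset.prod_nonneg fun u _ => c1_nonneg _ (hv u) _,
    ?_, ?_⟩
  · rw [← Fintype.prod_sum]
    exact Finset.prod_eq_one fun u _ => c1_sum _
  · intro F z
    have h1 : ∀ g : V → Bool, F g = ∑ y' : V → Bool, F y' * ∏ u, (if g u = y' u then (1 : ℝ) else 0) := by
      intro g
      rw [Finset.sum_eq_single g]
      · simp
      · intro y' _ hy
        obtain ⟨u, hu⟩ := Function.ne_iff.1 hy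
        rw [Finset.prod_eq_zero (Finset.mem_univ u) (if_neg (Ne.symm hu)), mul_zero]
      · intro h; exact absurd (Finset.mem_univ _) h
    have h2 : ∀ ρ : V → Option Bool, (∏ u, c1 (v u) (ρ u)) * mle (rst ρ F) (fun u => 2 * z u) =
        ∑ y' : V → Bool, F y' * ∏ u, ∑ b : Bool, c1 (v u) (ρ u) * ((1 + sg b * (2 * z u)) / 2) *
          (if (ρ u).getD b = y' u then (1 : ℝ) else 0) := by
      intro ρ
      unfold mle rst
      simp only [Fintype.prod_sum, Finset.mul_sum]
      rw [Finset.sum_comm]
      refine Finset.sum_congr rfl fun y _ => ?_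
      rw [h1 (fun u => (ρ u).getD (y u))]
      simp only [Finset.mul_sum]
      refine Finset.sum_congr rfl fun y' _ => ?_
      simp only [Finset.prod_mul_distrib]
      ring
    rw [Finset.sum_congr rfl fun ρ _ => h2 ρ, Finset.sum_comm]
    unfold mle
    refine Finset.sum_congr rfl fun y' _ => ?_
    rw [← Finset.mul_sum, ← Fintype.prod_sum (fun (u : V) (o : Option Bool) => ∑ b : Bool, c1 (v u) o *
      ((1 + sg b * (2 * z u)) / 2) * (if o.getD b = y' u then (1 : ℝ) else 0)), mul_comm]
    congr 1
    refine Finset.prod_congr rfl fun u _ => ?_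
    rw [key]

end Pool.Agent.H36.NB.RST
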